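import Pool.Agent.Lib.MP_45c416_gt.Img.Mass

open TopologicalSpace Set Filter Topology

namespace Pool.Agent.Lib.MP_45c416_gt.Img

section

variable {X : Type*} [TopologicalSpace X] [CompactSpace X] [T2Space X] {μ μ' : Clopens X → ℝ}

private theorem determ_close (hμ : μ ∈ Cont X) {ε : ℝ} {B : Finset X}
    (hB : ∀ V : Clopens X, (∀ a ∈ B, a ∉ V) → |μ V| ≤ ε) (V : Clopens X) :
    |μ V - ms μ ((B : Set X) ∩ V)| ≤ ε := by
  have h0 : (0 : ℝ) ≤ ε := (abs_nonneg _).trans (hB ⊥ fun a _ h => h)
  rw [abs_le]
  constructor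
  · have := ms_le hμ V (A := (B : Set X) ∩ V) inter_subset_right
    linarith
  · have : μ V - ε ≤ ms μ ((B : Set X) ∩ V) := by
      apply le_ms hμ
      intro W hW
      have h1 := (Cont.isCh hμ).inf_add_sdiff V W
      have h2 : μ (V ⊓ W) ≤ μ W := Cont.mono hμ inf_le_right
      have h3 : |μ (V \ W)| ≤ ε := by
        apply hB
        intro a ha hmem
        have h4 : a ∈ V := hmem.1
        have h5 : a ∉ W := hmem.2
        exact h5 (hW ⟨ha, h4⟩)
      have h6 := le_abs_self (μ (V \ W))
      linarith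
    linarith

/-- Contents on a scattered compact space are determined by the masses of the points. -/
theorem eq_of_ms_eq (hX : IsScattered X) (hμ : μ ∈ Cont X) (hμ' : μ' ∈ Cont X)
    (h : ∀ s, ms μ {s} = ms μ' {s}) : μ = μ' := by
  classical
  have := hX.totallyDisconnected
  have hfin : ∀ A : Set X, A.Finite → ms μ A = ms μ' A := by
    intro A hA
    induction A, hA using Set.Finite.induction_on with
    | empty => rw [ms_empty hμ, ms_empty hμ']
    | @insert a s ha hs ih => rw [ms_insert hμ hs ha, ms_insert hμ' hs ha, ih, h]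
  funext V
  have key : ∀ ε > 0, |μ V - μ' V| ≤ 2 * ε := by
    intro ε hε
    obtain ⟨A, hA⟩ := carried_top hX (Cont.isCh hμ) ε hε
    obtain ⟨A', hA'⟩ := carried_top hX (Cont.isCh hμ') ε hε
    have h1 := determ_close hμ (ε := ε) (B := A ∪ A') (fun W hW => hA W le_top fun a ha =>
      hW a (Finset.mem_union_left _ ha)) V
    have h2 := determ_close hμ' (ε := ε) (B := A ∪ A') (fun W hW => hA' W le_top fun a ha =>
      hW a (Finset.mem_union_right _ ha)) V
    have h3 := hfin (((A ∪ A' : Finset X) : Set X) ∩ V) ((Finset.finite_toSet _).inter_of_left _)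
    rw [h3] at h1
    rw [abs_le] at *
    constructor <;> linarith [h1.1, h1.2, h2.1, h2.2]
  have h0 : |μ V - μ' V| ≤ 0 := by
    apply le_of_forall_pos_le_add
    intro ε hε
    have := key (ε / 2) (half_pos hε)
    linarith
  have h1 := abs_nonpos_iff.mp h0
  linarith

end

end Pool.Agent.Lib.MP_45c416_gt.Img
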